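import Pool.Agent.Helper69.UX.StA

set_option autoImplicit false

namespace Pool.Agent.Helper46.UX

open Finset Filter Pool.Agent.Helper82.CN Pool.Agent.Helper11.PV Pool.Agent.Helper69.VX Pool.Agent.Helper69.UX

private theorem pt_card {n : ℕ} (P : Finset (Finset (Fin n))) (h : P ∈ Pt (Fin n)) : P.card ≤ n := by
  classical
  simp only [Pt, mem_filter, mem_univ, true_and] at h
  obtain ⟨h1, h2, h3⟩ := h
  have e1 : (P.biUnion id).card = ∑ A ∈ P, A.card :=
    card_biUnion (fun A hA B hB hAB => h2 A hA B hB hAB)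
  have h4 : (P.biUnion id).card ≤ n := by
    simpa using card_le_univ (P.biUnion id)
  have h5 : P.card ≤ ∑ A ∈ P, A.card := by
    calc P.card = ∑ A ∈ P, 1 := by simp
      _ ≤ _ := sum_le_sum (fun A hA => (h1 A hA).card_pos)
  omega

private theorem mulG (c G : ℝ) (h : c ≤ G) (h0 : 0 ≤ G) : c * G ≤ G ^ 2 := by
  rw [sq]; exact mul_le_mul_of_nonneg_right h h0

private theorem two_ch (r : ℕ) : 2 * r.choose 2 = r * (r - 1) := by
  rw [Nat.choose_two_right]
  exact Nat.mul_div_cancel' (Nat.even_mul_pred_self r).two_dvd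

/-- the sum `F` -/
private theorem Fb (b N G : ℝ) (T R : ℕ) (hb1 : 1 ≤ b) (hb8 : b ≤ 8) (hN1 : 1 ≤ N)
    (hG : 2 ^ 70 ≤ G) (hT4 : 4 ≤ T) (hT8 : (T : ℝ) ^ 8 ≤ G) (hGN : G ^ 40 ≤ N)
    (hR : R ≤ T) (hbR : b ^ (R - 1) ≤ b * N * G ^ 8) :
    ∑ r ∈ Icc 2 R, (2 * (T : ℝ) ^ 2 / N) ^ r * b ^ (r.choose 2) ≤ 2 ^ 65 * G / N ^ 2 := by
  have hT1 : (1 : ℝ) ≤ T := by exact_mod_cast (by omega : 1 ≤ T)
  have hT0 : (0 : ℝ) ≤ T := by linarith
  have hN0 : 0 < N := by linarith
  have hG1 : (1 : ℝ) ≤ G := by linarith [show (1 : ℝ) ≤ 2 ^ 70 by norm_num]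
  have hG0 : 0 < G := by linarith
  have hb0 : 0 < b := by linarith
  set y : ℝ := 2 * (T : ℝ) ^ 2 / N with hy
  have hy0 : 0 ≤ y := by positivity
  have hTT : (T : ℝ) ^ 2 ≤ (T : ℝ) ^ 8 := pow_le_pow_right₀ hT1 (by norm_num)
  have hT4' : (T : ℝ) ^ 4 ≤ (T : ℝ) ^ 8 := pow_le_pow_right₀ hT1 (by norm_num)
  have hT5' : (T : ℝ) ^ 5 ≤ (T : ℝ) ^ 8 := pow_le_pow_right₀ hT1 (by norm_num)
  have hG2 : G ^ 2 ≤ G ^ 40 := pow_le_pow_right₀ hG1 (by norm_num)
  have h2G : 2 * G ≤ G ^ 2 := mulG 2 G (le_trans (by norm_num) hG) hG0.le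
  have hy1 : y ≤ 1 := by
    rw [hy, div_le_one hN0]; linarith
  have key : ∀ r ∈ Icc 2 R, y ^ r * b ^ (r.choose 2) ≤ 2 ^ 65 * (T : ℝ) ^ 4 / N ^ 2 := by
    intro r hr
    rw [mem_Icc] at hr
    by_cases h7 : r ≤ 7
    · have a1 : y ^ r ≤ y ^ 2 := pow_le_pow_of_le_one hy0 hy1 hr.1
      have a2 : b ^ (r.choose 2) ≤ 8 ^ 21 := by
        have : r.choose 2 ≤ 21 := by
          have h := Nat.choose_le_choose 2 h7
          have h' : Nat.choose 7 2 = 21 := by decide
          omega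
        calc b ^ (r.choose 2) ≤ b ^ 21 := pow_le_pow_right₀ hb1 this
          _ ≤ 8 ^ 21 := pow_le_pow_left₀ hb0.le hb8 21
      calc y ^ r * b ^ (r.choose 2) ≤ y ^ 2 * 8 ^ 21 := by
            apply mul_le_mul a1 a2 (by positivity) (by positivity)
        _ = 2 ^ 65 * (T : ℝ) ^ 4 / N ^ 2 := by
            rw [hy, div_pow]; ring
    · have h8 : 8 ≤ r := by omega
      have a1 : y ^ 2 * b ^ (r - 1) ≤ G ^ 10 / N := by
        have c1 : b ^ (r - 1) ≤ b * N * G ^ 8 :=
          le_trans (pow_le_pow_right₀ hb1 (by omega)) hbR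
        have c2 : y ^ 2 * b ^ (r - 1) ≤ y ^ 2 * (8 * N * G ^ 8) := by
          apply mul_le_mul_of_nonneg_left _ (by positivity)
          refine le_trans c1 ?_
          gcongr
        have c3 : y ^ 2 * (8 * N * G ^ 8) = (32 * (T : ℝ) ^ 4) * G ^ 8 / N := by
          rw [hy]; field_simp; ring
        have c4 : 32 * (T : ℝ) ^ 4 ≤ G ^ 2 := by
          have : (32 : ℝ) * G ≤ G ^ 2 := mulG 32 G (le_trans (by norm_num) hG) hG0.le
          linarith
        rw [c3] at c2
        refine le_trans c2 ?_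
        rw [div_le_div_iff_of_pos_right hN0]
        calc 32 * (T : ℝ) ^ 4 * G ^ 8 ≤ G ^ 2 * G ^ 8 := by gcongr
          _ = G ^ 10 := by ring
      have a2 : G ^ 10 / N ≤ 1 := by
        rw [div_le_one hN0]
        exact le_trans (pow_le_pow_right₀ hG1 (by norm_num)) hGN
      have a3 : 0 ≤ y ^ 2 * b ^ (r - 1) := by positivity
      have a4 : (y ^ r * b ^ (r.choose 2)) ^ 2 ≤ (1 / N ^ 3) ^ 2 := by
        have e1 : (y ^ r * b ^ (r.choose 2)) ^ 2 = (y ^ 2 * b ^ (r - 1)) ^ r := by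
          rw [mul_pow, mul_pow, ← pow_mul, ← pow_mul, ← pow_mul, ← pow_mul]
          have : r.choose 2 * 2 = (r - 1) * r := by
            have := two_ch r
            rw [mul_comm, this, mul_comm]
          rw [this, mul_comm r 2]
        rw [e1]
        calc (y ^ 2 * b ^ (r - 1)) ^ r ≤ (y ^ 2 * b ^ (r - 1)) ^ 8 :=
              pow_le_pow_of_le_one a3 (le_trans a1 a2) h8
          _ ≤ (G ^ 10 / N) ^ 8 := pow_le_pow_left₀ a3 a1 8
          _ = (G ^ 40) ^ 2 / N ^ 8 := by rw [div_pow]; ring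
          _ ≤ N ^ 2 / N ^ 8 := by
              gcongr
          _ = (1 / N ^ 3) ^ 2 := by field_simp
      have a5 : y ^ r * b ^ (r.choose 2) ≤ 1 / N ^ 3 :=
        le_of_sq_le_sq a4 (by positivity)
      refine le_trans a5 ?_
      rw [div_le_div_iff₀ (by positivity) (by positivity)]
      have : (1 : ℝ) ≤ 2 ^ 65 * (T : ℝ) ^ 4 * N := by
        have x1 : (1 : ℝ) ≤ (T : ℝ) ^ 4 := one_le_pow₀ hT1
        have x2 : (1 : ℝ) ≤ 2 ^ 65 * (T : ℝ) ^ 4 := one_le_mul_of_one_le_of_one_le (by norm_num) x1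
        exact one_le_mul_of_one_le_of_one_le x2 hN1
      calc 1 * N ^ 2 = N ^ 2 * 1 := by ring
        _ ≤ N ^ 2 * (2 ^ 65 * (T : ℝ) ^ 4 * N) := by gcongr
        _ = 2 ^ 65 * (T : ℝ) ^ 4 * N ^ 3 := by ring
  have hc : ((Icc 2 R).card : ℝ) ≤ T := by
    have : (Icc 2 R).card ≤ T := by rw [Nat.card_Icc]; omega
    exact_mod_cast this
  calc ∑ r ∈ Icc 2 R, y ^ r * b ^ (r.choose 2) ≤ (Icc 2 R).card • (2 ^ 65 * (T : ℝ) ^ 4 / N ^ 2) :=
        sum_le_card_nsmul _ _ _ key
    _ = (Icc 2 R).card * (2 ^ 65 * (T : ℝ) ^ 4 / N ^ 2) := by rw [nsmul_eq_mul]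
    _ ≤ T * (2 ^ 65 * (T : ℝ) ^ 4 / N ^ 2) := by gcongr
    _ = 2 ^ 65 * (T : ℝ) ^ 5 / N ^ 2 := by ring
    _ ≤ 2 ^ 65 * G / N ^ 2 := by
        gcongr; linarith

/-- product bound from SET -/
private theorem prodb {n : ℕ} (P : Finset (Finset (Fin n))) (T R : ℕ) (b N w F : ℝ) (hP : P.card ≤ n)
    (hb1 : 1 ≤ b) (hN : N = n) (hN0 : 0 < N) (hw0 : 0 ≤ w) (hw : w ≤ 2 * T / N)
    (hPT : ∀ A ∈ P, A.card ≤ T)
    (hF : ∑ r ∈ Icc 2 R, (2 * (T : ℝ) ^ 2 / N) ^ r * b ^ (r.choose 2) ≤ F) :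
    ∏ A ∈ P, (1 + ∑ r ∈ Icc 2 R, (A.card.choose r : ℝ) * b ^ (r.choose 2) * w ^ r) ≤
      Real.exp (N * F) := by
  have hb0 : 0 < b := by linarith
  have hT0 : (0 : ℝ) ≤ T := by positivity
  have f1 : ∀ A ∈ P, (1 + ∑ r ∈ Icc 2 R, (A.card.choose r : ℝ) * b ^ (r.choose 2) * w ^ r) ≤
      Real.exp F := by
    intro A hA
    have f2 : ∑ r ∈ Icc 2 R, (A.card.choose r : ℝ) * b ^ (r.choose 2) * w ^ r ≤ F := by
      refine le_trans (sum_le_sum ?_) hF
      intro r hr
      have g1 : (A.card.choose r : ℝ) ≤ (T : ℝ) ^ r := by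
        have x1 : A.card.choose r ≤ A.card ^ r := Nat.choose_le_pow _ _
        have x2 : A.card ^ r ≤ T ^ r := Nat.pow_le_pow_left (hPT A hA) r
        exact_mod_cast le_trans x1 x2
      have g2 : w ^ r ≤ (2 * T / N) ^ r := pow_le_pow_left₀ hw0 hw r
      calc (A.card.choose r : ℝ) * b ^ (r.choose 2) * w ^ r ≤
            (T : ℝ) ^ r * b ^ (r.choose 2) * (2 * T / N) ^ r := by
            gcongr
        _ = ((T : ℝ) * (2 * T / N)) ^ r * b ^ (r.choose 2) := by rw [mul_pow]; ring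
        _ = (2 * (T : ℝ) ^ 2 / N) ^ r * b ^ (r.choose 2) := by
            congr 2; ring
    have := Real.add_one_le_exp F
    linarith
  have f0 : ∀ A ∈ P, 0 ≤ (1 + ∑ r ∈ Icc 2 R, (A.card.choose r : ℝ) * b ^ (r.choose 2) * w ^ r) := by
    intro A _
    positivity
  have hF0 : 0 ≤ F := le_trans (sum_nonneg (fun r _ => by positivity)) hF
  calc ∏ A ∈ P, (1 + ∑ r ∈ Icc 2 R, (A.card.choose r : ℝ) * b ^ (r.choose 2) * w ^ r) ≤
        ∏ _A ∈ P, Real.exp F := prod_le_prod f0 f1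
    _ = Real.exp F ^ P.card := by rw [prod_const]
    _ = Real.exp (P.card * F) := by rw [← Real.exp_nat_mul]
    _ ≤ Real.exp (N * F) := by
        apply Real.exp_le_exp.2
        apply mul_le_mul_of_nonneg_right _ hF0
        rw [hN]; exact_mod_cast hP

/-- size of `q^(T-1)` -/
private theorem qT (p N K0 : ℝ) (n T : ℕ) (hN : N = n) (hp0 : 0 < p) (hp : p ≤ 1 - 1 / Real.exp 2)
    (hT4 : 4 ≤ T) (h16 : (2 * (T : ℝ)) ^ 8 ≤ N) (h2T : 2 * T ≤ n) (hK0 : K0 = 4 * Real.exp 48)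
    (hM : Mk p n T ≤ N ^ 3) : (1 - p) ^ (T - 1) ≤ K0 * (T : ℝ) ^ 2 / N ^ 2 := by
  have hq : 1 / Real.exp 2 ≤ 1 - p := by linarith
  have hq0 : 0 < 1 - p := lt_of_lt_of_le (by positivity) hq
  have hT1 : (1 : ℝ) ≤ T := by exact_mod_cast (by omega : 1 ≤ T)
  have hT4r : (4 : ℝ) ≤ T := by exact_mod_cast hT4
  have hT0 : (0 : ℝ) < T := by linarith
  have h2T1 : (1 : ℝ) ≤ 2 * T := by linarith
  have hN1 : 1 ≤ N := le_trans (one_le_pow₀ h2T1) h16
  have hN0 : 0 < N := by linarith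
  have h2Tr : 2 * (T : ℝ) ≤ N := by rw [hN]; exact_mod_cast h2T
  set lq := Real.log (1 - p) with hlq
  have hlq2 : -2 ≤ lq := by
    have := Real.log_le_log (by positivity) hq
    rw [one_div, Real.log_inv, Real.log_exp] at this
    exact this
  have hlq0 : lq ≤ 0 := Real.log_nonpos hq0.le (by linarith)
  set lN := Real.log N with hlN
  set lT := Real.log (2 * T) with hlT
  have e8 : 8 * lT ≤ lN := by
    have := Real.log_le_log (by positivity) h16
    rw [Real.log_pow] at this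
    push_cast at this
    exact this
  -- lower bound for the binomial coefficient
  have hch : (N / (2 * T)) ^ T ≤ (n.choose T : ℝ) := by
    have h1 := Nat.pow_le_choose (α := ℝ) T n
    refine le_trans ?_ h1
    have h2 : N / 2 ≤ ((n + 1 - T : ℕ) : ℝ) := by
      have : (n : ℝ) ≤ 2 * ((n + 1 - T : ℕ) : ℝ) := by
        have : n ≤ 2 * (n + 1 - T) := by omega
        exact_mod_cast this
      rw [hN]; linarith
    have h3 : (T.factorial : ℝ) ≤ (T : ℝ) ^ T := by exact_mod_cast Nat.factorial_le_pow T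
    have h4 : (0 : ℝ) < T.factorial := by exact_mod_cast Nat.factorial_pos T
    calc (N / (2 * T)) ^ T = (N / 2) ^ T / (T : ℝ) ^ T := by
          rw [← div_pow]; congr 1; field_simp
      _ ≤ (((n + 1 - T : ℕ) : ℝ)) ^ T / T.factorial := by
          gcongr
  have hch0 : 0 < N / (2 * T) := by positivity
  have e1 : (T : ℝ) * (lN - lT) + ((T : ℝ) * (T - 1) / 2) * lq ≤ 3 * lN := by
    have h1 : (N / (2 * T)) ^ T * (1 - p) ^ (T.choose 2) ≤ N ^ 3 := by
      refine le_trans ?_ hM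
      unfold Mk
      gcongr
    have h2 := Real.log_le_log (by positivity) h1
    rw [Real.log_mul (by positivity) (by positivity), Real.log_pow, Real.log_pow, Real.log_pow,
      Real.log_div hN0.ne' (by positivity)] at h2
    have h3 : ((T.choose 2 : ℕ) : ℝ) = (T : ℝ) * (T - 1) / 2 := by
      have := two_ch T
      have h4 : (2 : ℝ) * ((T.choose 2 : ℕ) : ℝ) = (T : ℝ) * ((T - 1 : ℕ) : ℝ) := by exact_mod_cast this
      rw [Nat.cast_sub (by omega)] at h4
      push_cast at h4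
      linarith
    rw [h3] at h2
    push_cast at h2
    exact h2
  have hlN0 : 0 ≤ lN := Real.log_nonneg hN1
  have e2 : lN ≤ 8 * (T - 1) := by
    -- 3 lN ≤ (3/4) T lN
    have h1 : 3 * lN ≤ 3 / 4 * T * lN := by
      have := mul_le_mul_of_nonneg_right hT4r hlN0
      linarith
    have h2 : -((T : ℝ) * (T - 1)) ≤ ((T : ℝ) * (T - 1) / 2) * lq := by
      have h0 : 0 ≤ (T : ℝ) * (T - 1) / 2 := by
        have : (0 : ℝ) ≤ T - 1 := by linarith
        positivity
      have := mul_le_mul_of_nonneg_left hlq2 h0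
      linarith
    have h3 : (T : ℝ) * (lN - lT) - (T : ℝ) * (T - 1) ≤ 3 / 4 * T * lN := by linarith
    have h4 : (T : ℝ) * (lN / 4 - lT - (T - 1)) ≤ 0 := by linarith
    have h5 : lN / 4 - lT - (T - 1) ≤ 0 := by
      by_contra hh
      push Not at hh
      have := mul_pos hT0 hh
      linarith
    linarith
  have e3 : 2 * (lN - lT) - 48 ≤ -((T : ℝ) - 1) * lq := by
    have h1 : (T : ℝ) * (lN - lT) + ((T : ℝ) * (T - 1) / 2) * lq ≤ 24 * T := by linarith
    have h4 : (T : ℝ) * (lN - lT + (T - 1) / 2 * lq - 24) ≤ 0 := by linarith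
    have h5 : lN - lT + (T - 1) / 2 * lq - 24 ≤ 0 := by
      by_contra hh
      push Not at hh
      have := mul_pos hT0 hh
      linarith
    linarith
  have e4 : (1 - p) ^ (T - 1) = Real.exp (((T : ℝ) - 1) * lq) := by
    rw [hlq, mul_comm, Real.exp_mul, Real.exp_log hq0]
    rw [show ((T : ℝ) - 1) = ((T - 1 : ℕ) : ℝ) by rw [Nat.cast_sub (by omega)]; simp, Real.rpow_natCast]
  have e5 : K0 * (T : ℝ) ^ 2 / N ^ 2 = Real.exp (48 - 2 * (lN - lT)) := by
    rw [show (48 - 2 * (lN - lT) : ℝ) = 48 + (lT + lT) - (lN + lN) by ring, Real.exp_sub, Real.exp_add,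
      Real.exp_add, Real.exp_add, hlT, hlN, Real.exp_log (by positivity), Real.exp_log hN0, hK0]
    ring
  rw [e4, e5]
  apply Real.exp_le_exp.2
  linarith

private theorem numB (q N K0 : ℝ) (T r d : ℕ) (hq0 : 0 < q) (hq1 : q ≤ 1) (hN1 : 1 ≤ N) (hK1 : 1 ≤ K0)
    (hT : r + d = T) (hd : 1 ≤ d) (hr1 : 1 ≤ r) (h2r : T ≤ 2 * r + 1) (hT4 : 4 ≤ T)
    (hqT : q ^ (T - 1) ≤ K0 * (T : ℝ) ^ 2 / N ^ 2) (hKN : K0 ^ 3 * (T : ℝ) ^ 10 ≤ N ^ 2) :
    N * ((T : ℝ) ^ d * N ^ d * (q ^ (T.choose 2) * (1 / q) ^ (r.choose 2))) ≤ K0 ^ 2 * (T : ℝ) ^ 5 := by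
  have hT1 : (1 : ℝ) ≤ T := by exact_mod_cast (by omega : 1 ≤ T)
  have hT0 : (0 : ℝ) < T := by linarith
  have hN0 : 0 < N := by linarith
  have hK0 : 0 < K0 := by linarith
  have ex : 2 * T.choose 2 = 2 * r.choose 2 + (T + r - 1) * d := by
    rw [two_ch, two_ch]
    obtain ⟨r', rfl⟩ : ∃ r', r = r' + 1 := ⟨r - 1, by omega⟩
    subst hT
    simp only [Nat.add_sub_cancel]
    have e1 : r' + 1 + d - 1 = r' + d := by omega
    have e2 : r' + 1 + d + (r' + 1) - 1 = 2 * r' + 1 + d := by omega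
    rw [e1, e2]
    ring
  have e2 : (q ^ (T.choose 2) * (1 / q) ^ (r.choose 2)) ^ 2 = (q ^ (T + r - 1)) ^ d := by
    rw [mul_pow, ← pow_mul, ← pow_mul, ← pow_mul, mul_comm (T.choose 2) 2, ex, pow_add, mul_comm (r.choose 2) 2,
      one_div, inv_pow]
    field_simp
  set W : ℝ := (T : ℝ) ^ 2 * N ^ 2 * q ^ (T + r - 1) with hW
  have hW0 : 0 ≤ W := by positivity
  have e3 : (N * ((T : ℝ) ^ d * N ^ d * (q ^ (T.choose 2) * (1 / q) ^ (r.choose 2)))) ^ 2 = N ^ 2 * W ^ d := by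
    rw [mul_pow, mul_pow, mul_pow, e2, hW, mul_pow, mul_pow]
    ring
  have e4 : N ^ 2 * W ^ d ≤ (K0 ^ 2 * (T : ℝ) ^ 5) ^ 2 := by
    rcases Nat.lt_or_ge d 2 with h | h
    · have hd1 : d = 1 := by omega
      subst hd1
      have hr : r = T - 1 := by omega
      have w1 : W ≤ (T : ℝ) ^ 2 * N ^ 2 * (K0 * (T : ℝ) ^ 2 / N ^ 2) ^ 2 := by
        rw [hW]
        have : q ^ (T + r - 1) = (q ^ (T - 1)) ^ 2 := by
          rw [← pow_mul]; congr 1; omega
        rw [this]
        gcongr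
      calc N ^ 2 * W ^ 1 ≤ N ^ 2 * ((T : ℝ) ^ 2 * N ^ 2 * (K0 * (T : ℝ) ^ 2 / N ^ 2) ^ 2) := by
            rw [pow_one]; gcongr
        _ = K0 ^ 2 * (T : ℝ) ^ 6 := by field_simp
        _ ≤ K0 ^ 4 * (T : ℝ) ^ 10 := by
            gcongr <;> norm_num
        _ = (K0 ^ 2 * (T : ℝ) ^ 5) ^ 2 := by ring
    · have w2 : W ^ 2 ≤ K0 ^ 3 * (T : ℝ) ^ 10 / N ^ 2 := by
        have g1 : (q ^ (T + r - 1)) ^ 2 ≤ (K0 * (T : ℝ) ^ 2 / N ^ 2) ^ 3 := by
          calc (q ^ (T + r - 1)) ^ 2 ≤ (q ^ (T - 1)) ^ 3 := by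
                rw [← pow_mul, ← pow_mul]
                apply pow_le_pow_of_le_one hq0.le hq1
                omega
            _ ≤ _ := by gcongr
        calc W ^ 2 = (T : ℝ) ^ 4 * N ^ 4 * (q ^ (T + r - 1)) ^ 2 := by rw [hW]; ring
          _ ≤ (T : ℝ) ^ 4 * N ^ 4 * (K0 * (T : ℝ) ^ 2 / N ^ 2) ^ 3 := by gcongr
          _ = K0 ^ 3 * (T : ℝ) ^ 10 / N ^ 2 := by field_simp
      have w3 : W ^ 2 ≤ 1 := le_trans w2 (by rw [div_le_one (by positivity)]; exact hKN)
      have w4 : W ≤ 1 := (sq_le_one_iff₀ hW0).1 w3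
      calc N ^ 2 * W ^ d ≤ N ^ 2 * W ^ 2 := by
            apply mul_le_mul_of_nonneg_left _ (by positivity)
            exact pow_le_pow_of_le_one hW0 w4 h
        _ ≤ N ^ 2 * (K0 ^ 3 * (T : ℝ) ^ 10 / N ^ 2) := by gcongr
        _ = K0 ^ 3 * (T : ℝ) ^ 10 := by field_simp
        _ ≤ K0 ^ 4 * (T : ℝ) ^ 10 := by
            gcongr; norm_num
        _ = (K0 ^ 2 * (T : ℝ) ^ 5) ^ 2 := by ring
  exact le_of_sq_le_sq (by rw [e3]; exact e4) (by positivity)

private theorem termle (q : ℝ) (hq0 : 0 < q) (hq1 : q ≤ 1) (C X : ℕ) :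
    q ^ (C - X) ≤ q ^ C * (1 / q) ^ X := by
  rcases Nat.le_total X C with h | h
  · have : q ^ C = q ^ (C - X) * q ^ X := by rw [← pow_add]; congr 1; omega
    rw [this, mul_assoc, ← mul_pow, mul_one_div_cancel hq0.ne', one_pow, mul_one]
  · rw [Nat.sub_eq_zero_of_le h, pow_zero]
    have : (1 / q) ^ X = (1 / q) ^ C * (1 / q) ^ (X - C) := by rw [← pow_add]; congr 1; omega
    rw [this, ← mul_assoc, ← mul_pow, mul_one_div_cancel hq0.ne', one_pow, one_mul]
    apply one_le_pow₀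
    rw [le_div_iff₀ hq0]; linarith

open Classical in
private theorem partB (hSET : StSET) {n : ℕ} (P : Finset (Finset (Fin n))) (A : Finset (Fin n)) (hA : A ∈ P)
    (hPc : P.card ≤ n) (hdis : ∀ A ∈ P, ∀ B ∈ P, A ≠ B → Disjoint A B)
    (T R r : ℕ) (b N F : ℝ) (hb1 : 1 ≤ b) (hN : N = n) (hN0 : 0 < N) (h2T : 2 * T ≤ n) (hT4 : 4 ≤ T)
    (hRr : R < r) (hrT : r < T) (hTR : T ≤ 2 * R)
    (hPT : ∀ A ∈ P, A.card ≤ T)
    (hF : ∑ r ∈ Icc 2 R, (2 * (T : ℝ) ^ 2 / N) ^ r * b ^ (r.choose 2) ≤ F) :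
    ∑ S ∈ ((univ : Finset (Fin n)).powersetCard T).filter (fun S => (S ∩ A).card = r),
      b ^ (∑ A' ∈ P, (S ∩ A').card.choose 2) ≤
    (A.card.choose r : ℝ) * b ^ (r.choose 2) * ((n.choose (T - r) : ℝ) * Real.exp (N * F)) := by
  have hb0 : 0 < b := by linarith
  set s := ((univ : Finset (Fin n)).powersetCard T).filter (fun S => (S ∩ A).card = r) with hs
  set φ : Finset (Fin n) → Finset (Fin n) × Finset (Fin n) := fun S => (S ∩ A, S \ A) with hφ
  set f' : Finset (Fin n) × Finset (Fin n) → ℝ := fun x =>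
    b ^ (r.choose 2) * b ^ (∑ A' ∈ P.erase A, (x.2 ∩ A').card.choose 2) with hf'
  have h1 : ∀ S ∈ s, b ^ (∑ A' ∈ P, (S ∩ A').card.choose 2) = f' (φ S) := by
    intro S hS
    rw [hs, mem_filter, mem_powersetCard] at hS
    show b ^ (∑ A' ∈ P, (S ∩ A').card.choose 2) =
      b ^ (r.choose 2) * b ^ (∑ A' ∈ P.erase A, ((S \ A) ∩ A').card.choose 2)
    rw [← pow_add]
    congr 1
    rw [← Finset.add_sum_erase P _ hA, hS.2]
    congr 1
    apply sum_congr rfl
    intro A' hA'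
    rw [mem_erase] at hA'
    have hd := hdis A' hA'.2 A hA hA'.1
    congr 2
    ext v
    simp only [Finset.mem_inter, Finset.mem_sdiff]
    constructor
    · intro h; exact ⟨⟨h.1, fun hv => (disjoint_left.1 hd) h.2 hv⟩, h.2⟩
    · intro h; exact ⟨h.1.1, h.2⟩
  have hinj : Set.InjOn φ s := by
    intro S _ S' _ h
    simp only [hφ, Prod.mk.injEq] at h
    rw [← sdiff_union_inter S A, h.1, h.2, sdiff_union_inter]
  have hsub : s.image φ ⊆ (A.powersetCard r) ×ˢ ((univ \ A).powersetCard (T - r)) := by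
    intro x hx
    rw [mem_image] at hx
    obtain ⟨S, hS, rfl⟩ := hx
    rw [hs, mem_filter, mem_powersetCard] at hS
    rw [mem_product, mem_powersetCard, mem_powersetCard]
    refine ⟨⟨inter_subset_right, hS.2⟩, ⟨sdiff_subset_sdiff (subset_univ _) (Subset.refl _), ?_⟩⟩
    have := card_sdiff_add_card_inter S A
    simp only [hφ]
    omega
  set U : Finset (Fin n) := univ \ A with hU
  have hAT := hPT A hA
  have hUc : U.card = n - A.card := by
    rw [hU, card_sdiff_of_subset (subset_univ _), card_univ, Fintype.card_fin]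
  have hset := hSET n (T - r) R b U (P.erase A) hb1 (by omega) (by omega)
    (by
      intro A' hA'
      rw [mem_erase] at hA'
      rw [hU, subset_sdiff]
      exact ⟨subset_univ _, hdis A' hA'.2 A hA hA'.1⟩)
    (by
      intro A' hA' B' hB' hne
      exact hdis A' (mem_of_mem_erase hA') B' (mem_of_mem_erase hB') hne)
  have hfil : (U.powersetCard (T - r)).filter (fun S => ∀ A' ∈ P.erase A, (S ∩ A').card ≤ R) =
      U.powersetCard (T - r) := by
    rw [filter_eq_self]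
    intro S hS A' _
    rw [mem_powersetCard] at hS
    have := card_le_card (inter_subset_left (s₁ := S) (s₂ := A'))
    omega
  rw [hfil] at hset
  have hUr : (0 : ℝ) < U.card := by
    have : 0 < U.card := by omega
    exact_mod_cast this
  have hprod := prodb (P.erase A) T R b N (((T - r : ℕ) : ℝ) / U.card) F
    (le_trans (card_le_card (erase_subset _ _)) hPc) hb1 hN hN0 (by positivity)
    (by
      rw [div_le_div_iff₀ hUr hN0]
      have g1 : ((T - r : ℕ) : ℝ) ≤ T := by exact_mod_cast Nat.sub_le T r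
      have g2 : N ≤ 2 * U.card := by
        rw [hN]
        have : n ≤ 2 * U.card := by omega
        exact_mod_cast this
      calc ((T - r : ℕ) : ℝ) * N ≤ T * (2 * U.card) := by gcongr
        _ = 2 * T * U.card := by ring)
    (fun A' hA' => hPT A' (mem_of_mem_erase hA')) hF
  have hch : (U.card.choose (T - r) : ℝ) ≤ (n.choose (T - r) : ℝ) := by
    exact_mod_cast Nat.choose_le_choose _ (by omega)
  calc ∑ S ∈ s, b ^ (∑ A' ∈ P, (S ∩ A').card.choose 2) = ∑ S ∈ s, f' (φ S) := sum_congr rfl h1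
    _ = ∑ x ∈ s.image φ, f' x := (sum_image hinj).symm
    _ ≤ ∑ x ∈ (A.powersetCard r) ×ˢ (U.powersetCard (T - r)), f' x := by
        apply sum_le_sum_of_subset_of_nonneg hsub
        intro x _ _
        simp only [hf']
        positivity
    _ = (A.card.choose r : ℝ) * (b ^ (r.choose 2) *
          ∑ S ∈ U.powersetCard (T - r), b ^ (∑ A' ∈ P.erase A, (S ∩ A').card.choose 2)) := by
        rw [sum_product]
        simp only [hf', ← mul_sum]
        rw [sum_const, card_powersetCard, nsmul_eq_mul]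
        ring
    _ ≤ (A.card.choose r : ℝ) * (b ^ (r.choose 2) * ((n.choose (T - r) : ℝ) * Real.exp (N * F))) := by
        apply mul_le_mul_of_nonneg_left _ (by positivity)
        apply mul_le_mul_of_nonneg_left _ (by positivity)
        refine le_trans hset ?_
        apply mul_le_mul hch hprod _ (by positivity)
        apply prod_nonneg
        intro A' _
        positivity
    _ = _ := by ring

open Classical in
theorem hEPY : StSET → StMKS → StEPY := by
  intro hSET hMKS p ε hp0 hp hε hε2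
  obtain ⟨n1, h1⟩ := hMKS p ε hp0 hp hε hε2
  set K0 : ℝ := 4 * Real.exp 48 with hK0
  set C0 : ℝ := 2 ^ 70 + 4 * K0 ^ 3 with hC0
  have hev : ∀ᶠ n : ℕ in atTop, C0 ≤ (n : ℝ) ^ (ε / 8) :=
    ((tendsto_rpow_atTop (by positivity : 0 < ε / 8)).comp tendsto_natCast_atTop_atTop).eventually_ge_atTop C0
  obtain ⟨n2, h2⟩ := eventually_atTop.1 hev
  refine ⟨max n1 (max n2 1), ?_⟩
  intro n T th P hn hW hP hPT
  have hn1 : n1 ≤ n := le_trans (le_max_left _ _) hn
  have hn2 : n2 ≤ n := le_trans (le_trans (le_max_left _ _) (le_max_right _ _)) hn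
  have hn3 : 1 ≤ n := le_trans (le_trans (le_max_right _ _) (le_max_right _ _)) hn
  obtain ⟨hT4, hT8, hTn, hM1, hM2, -, -⟩ := h1 n T th hn1 hW
  have hG := h2 n hn2
  obtain ⟨-, hth1, hth2⟩ := hW
  set N : ℝ := (n : ℝ) with hN
  set G : ℝ := N ^ (ε / 8) with hGdef
  have hN1 : 1 ≤ N := by rw [hN]; exact_mod_cast hn3
  have hN0 : 0 < N := by linarith
  have hexp1 : (1 : ℝ) ≤ Real.exp 48 := Real.one_le_exp (by norm_num)
  have hK1 : 1 ≤ K0 := by rw [hK0]; linarith
  have hK3 : 1 ≤ K0 ^ 3 := one_le_pow₀ hK1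
  have hG70 : 2 ^ 70 ≤ G := by linarith
  have hGK : 4 * K0 ^ 3 ≤ G := by
    have : (0 : ℝ) ≤ 2 ^ 70 := by norm_num
    linarith
  have hG1 : 1 ≤ G := by linarith [show (1 : ℝ) ≤ 2 ^ 70 by norm_num]
  have hG0 : 0 < G := by linarith
  have hG8 : N ^ ε = G ^ 8 := by
    rw [hGdef, ← Real.rpow_natCast, ← Real.rpow_mul hN0.le]
    congr 1; push_cast; ring
  have hG40 : G ^ 40 ≤ N := by
    rw [hGdef, ← Real.rpow_natCast, ← Real.rpow_mul hN0.le]
    calc N ^ (ε / 8 * ((40 : ℕ) : ℝ)) ≤ N ^ (1 : ℝ) := by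
          apply Real.rpow_le_rpow_of_exponent_le hN1
          push_cast; linarith
      _ = N := Real.rpow_one N
  have hT1 : (1 : ℝ) ≤ T := by exact_mod_cast (by omega : 1 ≤ T)
  have hT0 : (0 : ℝ) < T := by linarith
  -- `q` and `b`
  set q : ℝ := 1 - p with hq
  have hq2 : 1 / Real.exp 2 ≤ q := by linarith
  have hq0 : 0 < q := lt_of_lt_of_le (by positivity) hq2
  have hq1 : q ≤ 1 := by linarith
  set b : ℝ := 1 / q with hb
  have hb1 : 1 ≤ b := by rw [hb, le_div_iff₀ hq0]; linarith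
  have hb0 : 0 < b := by linarith
  have hb8 : b ≤ 8 := by
    have e1 : b ≤ Real.exp 2 := by
      rw [hb, div_le_iff₀ hq0]
      rw [div_le_iff₀ (Real.exp_pos 2)] at hq2
      linarith
    have e2 : Real.exp 2 = Real.exp 1 * Real.exp 1 := by rw [← Real.exp_add]; norm_num
    have e3 := Real.exp_one_lt_d9
    have e4 := Real.exp_pos 1
    rw [e2] at e1
    have e5 : Real.exp 1 * Real.exp 1 ≤ 2.8 * 2.8 := by
      apply mul_le_mul _ _ e4.le (by norm_num) <;> linarith
    linarith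
  have hM3 : Mk p n T ≤ N ^ 3 := by
    refine le_trans hM2 ?_
    calc N ^ (1 + th + ε / 8) ≤ N ^ (3 : ℝ) := by
          apply Real.rpow_le_rpow_of_exponent_le hN1; linarith
      _ = N ^ 3 := by rw [← Real.rpow_natCast]; norm_num
  have hM0 : 1 ≤ Mk p n T := by
    refine le_trans ?_ hM1
    apply Real.one_le_rpow hN1; linarith
  -- `T` is small
  have hG2N : G ^ 2 ≤ N := le_trans (pow_le_pow_right₀ hG1 (by norm_num)) hG40
  have h2TG : 2 * G ≤ G ^ 2 := mulG 2 G (le_trans (by norm_num) hG70) hG0.le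
  have hTG : (T : ℝ) ≤ G := le_trans (le_self_pow₀ hT1 (by norm_num)) hT8
  have h2Tn : 2 * T ≤ n := by
    have : 2 * (T : ℝ) ≤ n := by rw [← hN]; linarith
    exact_mod_cast this
  have h16 : (2 * (T : ℝ)) ^ 8 ≤ N := by
    rw [mul_pow]
    have : (2 : ℝ) ^ 8 * G ≤ G ^ 2 := mulG _ G (le_trans (by norm_num) hG70) hG0.le
    have : (2 : ℝ) ^ 8 * (T : ℝ) ^ 8 ≤ 2 ^ 8 * G := by gcongr
    linarith
  have hqT : q ^ (T - 1) ≤ K0 * (T : ℝ) ^ 2 / N ^ 2 :=
    qT p N K0 n T hN hp0 hp hT4 h16 h2Tn hK0 hM3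
  -- `b ^ (T-1) ≤ N^2`
  have hbT : b ^ (T - 1) ≤ N ^ 2 := by
    have e1 : b ^ (T.choose 2) ≤ N ^ T := by
      have x1 : 1 ≤ (n.choose T : ℝ) * q ^ (T.choose 2) := hM0
      have x2 : (n.choose T : ℝ) ≤ N ^ T := by
        rw [hN]; exact_mod_cast Nat.choose_le_pow n T
      have x3 : b ^ (T.choose 2) = 1 / q ^ (T.choose 2) := by rw [hb, div_pow, one_pow]
      rw [x3, div_le_iff₀ (by positivity)]
      refine le_trans x1 ?_
      gcongr
    have e2 : (b ^ (T - 1)) ^ T ≤ (N ^ 2) ^ T := by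
      calc (b ^ (T - 1)) ^ T = (b ^ (T.choose 2)) ^ 2 := by
            rw [← pow_mul, ← pow_mul]
            congr 1
            have := two_ch T
            rw [mul_comm (T.choose 2) 2, this, mul_comm]
        _ ≤ (N ^ T) ^ 2 := by gcongr
        _ = (N ^ 2) ^ T := by rw [← pow_mul, ← pow_mul, mul_comm]
    exact (pow_le_pow_iff_left₀ (by positivity) (by positivity) (by omega)).1 e2
  -- the threshold `R`
  set R := RR ε T with hR
  have hRle : (1 / 2 + ε / 2) * (T : ℝ) ≤ R := by rw [hR]; exact Nat.le_ceil _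
  have hRlt : (R : ℝ) < (1 / 2 + ε / 2) * (T : ℝ) + 1 := by
    rw [hR]; exact Nat.ceil_lt_add_one (by positivity)
  have hTR : T ≤ 2 * R := by
    have hεT : 0 ≤ ε * T := mul_nonneg hε.le hT0.le
    have : (T : ℝ) ≤ 2 * R := by
      have e : (1 / 2 + ε / 2) * (T : ℝ) = T / 2 + ε * T / 2 := by ring
      rw [e] at hRle
      linarith
    exact_mod_cast this
  have hRT : R ≤ T := by
    rw [hR]; unfold RR
    rw [Nat.ceil_le]
    calc (1 / 2 + ε / 2) * (T : ℝ) ≤ 1 * T := by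
          apply mul_le_mul_of_nonneg_right _ hT0.le
          linarith
      _ = T := one_mul _
  have hR1 : 1 ≤ R := by omega
  have hbR : b ^ (R - 1) ≤ b * N * G ^ 8 := by
    have x0 : ((R - 1 : ℕ) : ℝ) = (R : ℝ) - 1 := by rw [Nat.cast_sub hR1]; simp
    have x1 : b ^ (R - 1) ≤ b ^ ((T : ℝ) * ((1 + ε) / 2)) := by
      rw [← Real.rpow_natCast, x0]
      apply Real.rpow_le_rpow_of_exponent_le hb1
      linarith
    have x2 : b ^ T ≤ b * N ^ 2 := by
      calc b ^ T = b * b ^ (T - 1) := by rw [← pow_succ']; congr 1; omega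
        _ ≤ b * N ^ 2 := by gcongr
    have x3 : b ^ ((T : ℝ) * ((1 + ε) / 2)) = (b ^ T) ^ ((1 + ε) / 2) := by
      rw [Real.rpow_mul hb0.le, Real.rpow_natCast]
    have x4 : (b ^ T) ^ ((1 + ε) / 2) ≤ (b * N ^ 2) ^ ((1 + ε) / 2) :=
      Real.rpow_le_rpow (by positivity) x2 (by positivity)
    have x5 : (b * N ^ 2) ^ ((1 + ε) / 2) = b ^ ((1 + ε) / 2) * N ^ (1 + ε) := by
      rw [Real.mul_rpow hb0.le (by positivity)]
      congr 1
      rw [← Real.rpow_natCast, ← Real.rpow_mul hN0.le]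
      congr 1; push_cast; ring
    have x6 : b ^ ((1 + ε) / 2) ≤ b := by
      calc b ^ ((1 + ε) / 2) ≤ b ^ (1 : ℝ) := by
            apply Real.rpow_le_rpow_of_exponent_le hb1; linarith
        _ = b := Real.rpow_one b
    have x7 : N ^ (1 + ε) = N * G ^ 8 := by
      rw [Real.rpow_add hN0, Real.rpow_one, hG8]
    calc b ^ (R - 1) ≤ b ^ ((T : ℝ) * ((1 + ε) / 2)) := x1
      _ = (b ^ T) ^ ((1 + ε) / 2) := x3
      _ ≤ (b * N ^ 2) ^ ((1 + ε) / 2) := x4
      _ = b ^ ((1 + ε) / 2) * (N * G ^ 8) := by rw [x5, x7]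
      _ ≤ b * (N * G ^ 8) := by gcongr
      _ = b * N * G ^ 8 := by ring
  set F : ℝ := 2 ^ 65 * G / N ^ 2 with hFdef
  have hF := Fb b N G T R hb1 hb8 hN1 hG70 hT4 hT8 hG40 hRT hbR
  have hNF : N * F = 2 ^ 65 * G / N := by rw [hFdef]; field_simp
  have hNF0 : 0 ≤ N * F := by rw [hNF]; positivity
  have hNF1 : N * F ≤ 1 / 2 := by
    rw [hNF, div_le_iff₀ hN0]
    have : (2 : ℝ) ^ 66 * G ≤ G ^ 2 := mulG _ G (le_trans (by norm_num) hG70) hG0.le
    linarith
  have hexpF : Real.exp (N * F) ≤ 1 + 2 * (N * F) := by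
    have := Real.abs_exp_sub_one_le (x := N * F) (by rw [abs_of_nonneg hNF0]; linarith)
    rw [abs_of_nonneg hNF0] at this
    have := le_trans (le_abs_self _) this
    linarith
  have hexpF2 : Real.exp (N * F) ≤ 2 := by linarith
  have hexpF3 : Real.exp (N * F) ≤ 1 + N ^ (-1 + ε) := by
    have : N ^ (-1 + ε) = G ^ 8 / N := by
      rw [Real.rpow_add hN0, Real.rpow_neg_one, hG8]; field_simp
    rw [this]
    have y1 : 2 * (N * F) ≤ G ^ 8 / N := by
      rw [hNF, ← mul_div_assoc, div_le_div_iff_of_pos_right hN0]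
      have z1 : (2 : ℝ) * (2 ^ 65 * G) ≤ G ^ 2 := by
        rw [← mul_assoc]
        exact mulG _ G (le_trans (by norm_num) hG70) hG0.le
      exact le_trans z1 (pow_le_pow_right₀ hG1 (by norm_num))
    linarith
  -- partition facts
  have hPc := pt_card P hP
  have hdis : ∀ A ∈ P, ∀ B ∈ P, A ≠ B → Disjoint A B := by
    have h := hP
    simp only [Pt, mem_filter, mem_univ, true_and] at h
    exact h.2.1
  set PS := (univ : Finset (Fin n)).powersetCard T with hPS
  set X : Finset (Fin n) → ℕ := fun S => ∑ A ∈ P, (S ∩ A).card.choose 2 with hX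
  set t : Finset (Fin n) → ℝ := fun S => q ^ (T.choose 2 - X S) with ht
  have ht0 : ∀ S, 0 ≤ t S := fun S => by simp only [ht]; positivity
  have htX : ∀ S, t S ≤ q ^ (T.choose 2) * b ^ (X S) := fun S => termle q hq0 hq1 _ _
  have ht1 : ∀ S, t S ≤ 1 := fun S => pow_le_one₀ hq0.le hq1
  set small : Finset (Fin n) → Prop := fun S => ∀ A ∈ P, (S ∩ A).card ≤ R with hsmall
  have hsplit : ∑ S ∈ PS, t S = ∑ S ∈ PS.filter small, t S + ∑ S ∈ PS.filter (fun S => ¬ small S), t S :=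
    (sum_filter_add_sum_filter_not _ _ _).symm
  -- (a)
  have ha : ∑ S ∈ PS.filter small, t S ≤ Mk p n T * (1 + N ^ (-1 + ε)) := by
    have hset := hSET n T R b univ P hb1 (by simpa using hTn) (by simpa using hn3) (fun A _ => subset_univ A) hdis
    rw [card_univ, Fintype.card_fin] at hset
    have hprod := prodb P T R b N ((T : ℝ) / n) F hPc hb1 hN hN0 (by positivity)
      (by
        rw [← hN]
        gcongr
        linarith) hPT hF
    have e1 : ∑ S ∈ PS.filter small, b ^ (X S) ≤ (n.choose T : ℝ) * Real.exp (N * F) := by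
      refine le_trans ?_ (le_trans hset (mul_le_mul_of_nonneg_left hprod (by positivity)))
      apply le_of_eq
      apply sum_congr
      · ext S; simp only [mem_filter, hsmall, hPS]
      · intro S _; rfl
    calc ∑ S ∈ PS.filter small, t S ≤ ∑ S ∈ PS.filter small, q ^ (T.choose 2) * b ^ (X S) :=
          sum_le_sum (fun S _ => htX S)
      _ = q ^ (T.choose 2) * ∑ S ∈ PS.filter small, b ^ (X S) := by rw [mul_sum]
      _ ≤ q ^ (T.choose 2) * ((n.choose T : ℝ) * Real.exp (N * F)) := by gcongr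
      _ = Mk p n T * Real.exp (N * F) := by unfold Mk; ring
      _ ≤ Mk p n T * (1 + N ^ (-1 + ε)) := by
          apply mul_le_mul_of_nonneg_left hexpF3; linarith
  -- (b)
  have hb2 : ∑ S ∈ PS.filter (fun S => ¬ small S), t S ≤
      ∑ A ∈ P, ∑ S ∈ PS, (if R < (S ∩ A).card then t S else 0) := by
    rw [sum_comm, sum_filter]
    apply sum_le_sum
    intro S _
    by_cases hs : small S
    · rw [if_neg (by simpa using hs)]
      apply sum_nonneg
      intro A _
      split_ifs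
      · exact ht0 S
      · exact le_rfl
    · rw [if_pos hs]
      have hs' := hs
      simp only [hsmall] at hs'
      push Not at hs'
      obtain ⟨A, hA, hAR⟩ := hs'
      have hnn : ∀ A ∈ P, 0 ≤ (if R < (S ∩ A).card then t S else 0) := by
        intro A _
        split_ifs
        · exact ht0 S
        · exact le_rfl
      have hone := single_le_sum hnn hA
      rw [if_pos hAR] at hone
      exact hone
  have hb3 : ∀ A ∈ P, ∑ S ∈ PS, (if R < (S ∩ A).card then t S else 0) ≤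
      (if A.card = T then (1 : ℝ) else 0) + T * (2 * (K0 ^ 2 * (T : ℝ) ^ 5 / N)) := by
    intro A hA
    have c1 : ∑ S ∈ PS, (if R < (S ∩ A).card then t S else 0) ≤
        ∑ S ∈ PS, (if (S ∩ A).card = T then t S else 0) +
        ∑ r ∈ Ioo R T, ∑ S ∈ PS, (if (S ∩ A).card = r then t S else 0) := by
      rw [sum_comm (s := Ioo R T), ← sum_add_distrib]
      apply sum_le_sum
      intro S hS
      rw [hPS, mem_powersetCard] at hS
      have hle : (S ∩ A).card ≤ T := by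
        rw [← hS.2]; exact card_le_card inter_subset_left
      have hnn : ∀ r ∈ Ioo R T, 0 ≤ (if (S ∩ A).card = r then t S else 0) := by
        intro r _
        split_ifs
        · exact ht0 S
        · exact le_rfl
      by_cases h : R < (S ∩ A).card
      · rw [if_pos h]
        by_cases h' : (S ∩ A).card = T
        · rw [if_pos h']
          have := sum_nonneg hnn
          linarith
        · rw [if_neg h', zero_add]
          have hm : (S ∩ A).card ∈ Ioo R T := by rw [mem_Ioo]; omega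
          refine le_trans (le_of_eq ?_) (single_le_sum hnn hm)
          rw [if_pos rfl]
      · rw [if_neg h]
        apply add_nonneg
        · split_ifs
          · exact ht0 S
          · exact le_rfl
        · exact sum_nonneg hnn
    have c2 : ∑ S ∈ PS, (if (S ∩ A).card = T then t S else 0) ≤ if A.card = T then (1 : ℝ) else 0 := by
      have c3 : ∀ S ∈ PS, (if (S ∩ A).card = T then t S else 0) ≤
          if S = A then (if A.card = T then (1 : ℝ) else 0) else 0 := by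
        intro S hS
        rw [hPS, mem_powersetCard] at hS
        by_cases h : (S ∩ A).card = T
        · have hSA : S ∩ A = S := eq_of_subset_of_card_le inter_subset_left (by rw [h, hS.2])
          have hsub : S ⊆ A := inter_eq_left.1 hSA
          have hSA2 : S = A := eq_of_subset_of_card_le hsub (by rw [hS.2]; exact hPT A hA)
          rw [if_pos h, if_pos hSA2, if_pos (by rw [← hSA2, hS.2])]
          exact ht1 S
        · rw [if_neg h]
          split_ifs <;> norm_num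
      refine le_trans (sum_le_sum c3) ?_
      rw [sum_ite_eq' PS A (fun _ => if A.card = T then (1 : ℝ) else 0)]
      split_ifs <;> norm_num
    have c4 : ∀ r ∈ Ioo R T, ∑ S ∈ PS, (if (S ∩ A).card = r then t S else 0) ≤
        2 * (K0 ^ 2 * (T : ℝ) ^ 5 / N) := by
      intro r hr
      rw [mem_Ioo] at hr
      rw [← sum_filter]
      have d1 := partB hSET P A hA hPc hdis T R r b N F hb1 hN hN0 h2Tn hT4 hr.1 hr.2 hTR hPT hF
      have hKN : K0 ^ 3 * (T : ℝ) ^ 10 ≤ N ^ 2 := by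
        have z1 : (T : ℝ) ^ 10 ≤ (T : ℝ) ^ 16 := pow_le_pow_right₀ hT1 (by norm_num)
        have z2 : (T : ℝ) ^ 16 ≤ G ^ 2 := by
          calc (T : ℝ) ^ 16 = ((T : ℝ) ^ 8) ^ 2 := by ring
            _ ≤ G ^ 2 := by gcongr
        have z3 : K0 ^ 3 ≤ G := by linarith
        calc K0 ^ 3 * (T : ℝ) ^ 10 ≤ G * G ^ 2 := by
              apply mul_le_mul z3 (le_trans z1 z2) (by positivity) hG0.le
          _ = G ^ 3 := by ring
          _ ≤ G ^ 40 := pow_le_pow_right₀ hG1 (by norm_num)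
          _ ≤ N := hG40
          _ ≤ N ^ 2 := le_self_pow₀ hN1 (by norm_num)
      have d2 := numB q N K0 T r (T - r) hq0 hq1 hN1 hK1 (by omega) (by omega) (by omega) (by omega) hT4 hqT hKN
      have d3 : (A.card.choose r : ℝ) ≤ (T : ℝ) ^ (T - r) := by
        have x1 : A.card.choose r ≤ T.choose r := Nat.choose_le_choose r (hPT A hA)
        have x2 : T.choose r = T.choose (T - r) := (Nat.choose_symm (by omega)).symm
        have x3 : T.choose (T - r) ≤ T ^ (T - r) := Nat.choose_le_pow _ _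
        exact_mod_cast (by omega : A.card.choose r ≤ T ^ (T - r))
      have d4 : (n.choose (T - r) : ℝ) ≤ N ^ (T - r) := by
        rw [hN]; exact_mod_cast Nat.choose_le_pow n (T - r)
      calc ∑ S ∈ PS.filter (fun S => (S ∩ A).card = r), t S ≤
            ∑ S ∈ PS.filter (fun S => (S ∩ A).card = r), q ^ (T.choose 2) * b ^ (X S) :=
            sum_le_sum (fun S _ => htX S)
        _ = q ^ (T.choose 2) * ∑ S ∈ PS.filter (fun S => (S ∩ A).card = r), b ^ (X S) := by rw [mul_sum]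
        _ ≤ q ^ (T.choose 2) * ((A.card.choose r : ℝ) * b ^ (r.choose 2) *
              ((n.choose (T - r) : ℝ) * Real.exp (N * F))) := by
            apply mul_le_mul_of_nonneg_left _ (by positivity)
            exact d1
        _ ≤ q ^ (T.choose 2) * ((T : ℝ) ^ (T - r) * b ^ (r.choose 2) * (N ^ (T - r) * 2)) := by
            gcongr
        _ = 2 * ((T : ℝ) ^ (T - r) * N ^ (T - r) * (q ^ (T.choose 2) * (1 / q) ^ (r.choose 2))) := by
            rw [← hb]; ring
        _ ≤ 2 * (K0 ^ 2 * (T : ℝ) ^ 5 / N) := by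
            apply mul_le_mul_of_nonneg_left _ (by norm_num)
            rw [le_div_iff₀ hN0]
            linarith
    have c5 : ∑ r ∈ Ioo R T, ∑ S ∈ PS, (if (S ∩ A).card = r then t S else 0) ≤
        T * (2 * (K0 ^ 2 * (T : ℝ) ^ 5 / N)) := by
      refine le_trans (sum_le_card_nsmul _ _ _ c4) ?_
      rw [nsmul_eq_mul]
      apply mul_le_mul_of_nonneg_right _ (by positivity)
      have : (Ioo R T).card ≤ T := by rw [Nat.card_Ioo]; omega
      exact_mod_cast this
    linarith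
  have hb4 : ∑ A ∈ P, ∑ S ∈ PS, (if R < (S ∩ A).card then t S else 0) ≤
      ((P.filter (fun A => A.card = T)).card : ℝ) + N ^ ε := by
    refine le_trans (sum_le_sum hb3) ?_
    rw [sum_add_distrib, sum_const, nsmul_eq_mul]
    have y1 : ∑ A ∈ P, (if A.card = T then (1 : ℝ) else 0) = ((P.filter (fun A => A.card = T)).card : ℝ) := by
      rw [← sum_filter, sum_const, nsmul_eq_mul, mul_one]
    rw [y1]
    have y2 : (P.card : ℝ) * (T * (2 * (K0 ^ 2 * (T : ℝ) ^ 5 / N))) ≤ N ^ ε := by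
      rw [hG8]
      have w1 : (P.card : ℝ) ≤ N := by rw [hN]; exact_mod_cast hPc
      have w2 : (T : ℝ) ^ 6 ≤ G := le_trans (pow_le_pow_right₀ hT1 (by norm_num)) hT8
      have w3 : 2 * K0 ^ 2 ≤ G := by
        have v1 : K0 ^ 2 ≤ K0 ^ 3 := pow_le_pow_right₀ hK1 (by norm_num)
        linarith
      calc (P.card : ℝ) * (T * (2 * (K0 ^ 2 * (T : ℝ) ^ 5 / N))) ≤
            N * (T * (2 * (K0 ^ 2 * (T : ℝ) ^ 5 / N))) := by gcongr
        _ = 2 * K0 ^ 2 * (T : ℝ) ^ 6 := by field_simp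
        _ ≤ G * G := by
            apply mul_le_mul w3 w2 (by positivity) hG0.le
        _ = G ^ 2 := by ring
        _ ≤ G ^ 8 := pow_le_pow_right₀ hG1 (by norm_num)
    linarith
  have hfin : ∑ S ∈ PS, t S ≤
      Mk p n T * (1 + N ^ (-1 + ε)) + (P.filter (fun A => A.card = T)).card + N ^ ε := by
    rw [hsplit]
    linarith
  convert hfin using 2

end Pool.Agent.Helper46.UX
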